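import Mathlib
import Pool.Agent.Helper71.ZN.Lvl
import Pool.Agent.Helper71.ZN.Zil

/-!
# MP_c95b3b_ag: Zilber's conjecture for the points in very large groups of algebraic numbers

The definitions of `Subvariety`, `ZClosed`, `vdim`, `hull`, `defect` and `Optimal` for subsets of tori
are in `Pool.Graph.R_seed8.R948.Var`; `cst W g` (in `Pool.Graph.R_seed8.R948.Coset`) is the coset
`{x | x ^ a = g ^ a for all integral vectors a in W}` of a subtorus.

* `algUnits` is the multiplicative group `Q̄ˣ` of the nonzero algebraic numbers in `ℂ`.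
* `pts Γ A` is the set of the points of `A` with all coordinates in the group `Γ`.
* `DenseIn B A`: every polynomial which vanishes on `B` vanishes on `A`.
* `U Y` is the set of the points of `Y` on algebraic subgroups `H` with `dim Y + dim H ≤ n - 1`.

**Theorem.** Let `G` be a finitely generated group of nonzero algebraic numbers. There is a subgroup `Γ₀`
of `Q̄ˣ` which contains all `x` with a power `x ^ m`, `m > 0`, in `G`, with `Q̄ˣ / Γ₀` isomorphic to the
additive group of the rational numbers, such that for every group `Γ` with `Γ₀ ≤ Γ < Q̄ˣ`: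

1. (Zilber's conjecture for the points in `Γ ^ n`.) If `Y` is an irreducible closed subvariety of the
   torus over `ℂ`, and the points of `U(Y)` with coordinates in `Γ` are Zariski dense in `Y`, then `Y` is
   contained in a proper algebraic subgroup.
2. A closed subset `V` of the torus over `ℂ` has only finitely many optimal subvarieties with a Zariski
   dense set of points with coordinates in `Γ`; so it has only finitely many optimal points in `Γ ^ n`.
3. (The Mordell-Lang property.) The set of the points of `V` with coordinates in `Γ` is contained in the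
   union of finitely many cosets of subtori which are contained in `V`.

In particular `Q̄ˣ` is for every prime `p` the union of an increasing sequence of such groups `Γ`, with
`x ^ p` in the `K`-th group for all `x` in the `K+1`-st group.
-/

set_option autoImplicit false

namespace Pool.Agent.Results.MP_c95b3b_ag.AlmostAllAlgebraicNumbers

open Pool.Agent.R948 Pool.Agent.Helper71.ZN

/-- Zilber's conjecture for the points with coordinates in `Γ` -/
def ZilberFor (Γ : Subgroup ℂˣ) : Prop :=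
  ∀ (n : ℕ) (Y : Set (Fin n → ℂˣ)), Subvariety Y → DenseIn (U Y ∩ pts Γ Y) Y →
    ∃ a : Fin n → ℤ, a ≠ 0 ∧ ∀ x ∈ Y, ∏ i, x i ^ a i = 1

/-- finitely many optimal subvarieties with dense sets of points with coordinates in `Γ` -/
def FinitelyManyOptimal (Γ : Subgroup ℂˣ) : Prop :=
  ∀ (n : ℕ) (V : Set (Fin n → ℂˣ)), ZClosed V →
    {A : Set (Fin n → ℂˣ) | Optimal A V ∧ DenseIn (pts Γ A) A}.Finite

/-- the Mordell-Lang property of `Γ` -/
def MordellLang (Γ : Subgroup ℂˣ) : Prop :=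
  ∀ (n : ℕ) (V : Set (Fin n → ℂˣ)), ZClosed V → ∃ 𝒞 : Set (Set (Fin n → ℂˣ)), 𝒞.Finite ∧
    (∀ C ∈ 𝒞, C ⊆ V ∧ ∃ (W : Submodule ℚ (Fin n → ℚ)) (g : Fin n → ℂˣ), (∀ i, g i ∈ Γ) ∧
      C = cst W g) ∧ pts Γ V ⊆ ⋃₀ 𝒞

/-- all three properties -/
def Good (Γ : Subgroup ℂˣ) : Prop :=
  ZilberFor Γ ∧ FinitelyManyOptimal Γ ∧ MordellLang Γ

theorem good {Γ : Subgroup ℂˣ} (hM : MannG Γ) (hΓ : Γ ≤ algUnits) : Good Γ := by
  refine ⟨fun n Y hY hd => zilber hM hΓ hY hd, fun n V hV => finite_optimal hM hΓ hV,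
    fun n V hV => ?_⟩
  obtain ⟨𝒞, h1, h2, h3⟩ := mordell_lang hM hΓ hV
  refine ⟨𝒞, h1, h2, fun x hx => ?_⟩
  obtain ⟨W, hW⟩ := h3 x hx.1 hx.2
  exact ⟨_, hW, mem_cst_self _ _⟩

theorem result (G : Subgroup ℂˣ) (hG : G.FG) (hGa : G ≤ algUnits) :
    ∃ Γ₀ : Subgroup ℂˣ, Γ₀ ≤ algUnits ∧
      (∀ (x : ℂˣ) (m : ℕ), 0 < m → x ^ m ∈ G → x ∈ Γ₀) ∧
      Nonempty (algUnits ⧸ Γ₀.subgroupOf algUnits ≃* Multiplicative ℚ) ∧
      (∀ Γ : Subgroup ℂˣ, Γ₀ ≤ Γ → Γ < algUnits → Good Γ) ∧
      ∀ p : ℕ, p.Prime → ∃ Γ : ℕ → Subgroup ℂˣ, Monotone Γ ∧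
        (∀ K, Γ₀ ≤ Γ K ∧ Γ K < algUnits ∧ Good (Γ K)) ∧
        (∀ x ∈ algUnits, ∃ K, x ∈ Γ K) ∧ ∀ K, ∀ x ∈ Γ (K + 1), x ^ p ∈ Γ K := by
  obtain ⟨f, hf, h1, h2⟩ := exists_group G hG hGa
  have hmem : ∀ x : algUnits, (x : ℂˣ) ∈ f.ker.map algUnits.subtype ↔ f x = 1 := by
    intro x
    constructor
    · rintro ⟨y, hy, hyx⟩
      rw [← Subtype.ext hyx]
      exact hy
    · intro h
      exact ⟨x, h, rfl⟩
  have hgood : ∀ Γ : Subgroup ℂˣ, (f.ker.map algUnits.subtype) ≤ Γ → Γ < algUnits → Good Γ := by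
    intro Γ h3 h4
    exact good (h2 Γ (fun x hx => h3 ((hmem x).2 hx)) h4) h4.le
  refine ⟨f.ker.map algUnits.subtype, ?_, ?_, ?_, hgood, ?_⟩
  · rintro _ ⟨y, -, rfl⟩
    exact y.2
  · intro x m hm hx
    have hxa : x ∈ algUnits := by
      have h3 : IsAlgebraic ℚ ((x : ℂ) ^ m) := by
        have h4 := hGa hx
        rw [mem_algUnits, Units.val_pow_eq_pow_val] at h4
        exact h4
      exact IsAlgebraic.of_pow hm h3
    exact (hmem ⟨x, hxa⟩).2 (h1 ⟨x, hxa⟩ m hm hx)
  · have h3 : (f.ker.map algUnits.subtype).subgroupOf algUnits = f.ker := by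
      ext x
      rw [Subgroup.mem_subgroupOf, hmem, MonoidHom.mem_ker]
    exact ⟨(QuotientGroup.quotientMulEquivOfEq h3).trans
      (QuotientGroup.quotientKerEquivOfSurjective f hf)⟩
  · intro p hp
    have : Fact p.Prime := ⟨hp⟩
    have hle : ∀ K, (f.ker.map algUnits.subtype) ≤ lvl f p K := by
      rintro K _ ⟨y, hy, rfl⟩
      exact ker_le_lvl f p K y hy
    exact ⟨lvl f p, lvl_mono f p, fun K => ⟨hle K, lvl_lt f p hf K,
      hgood _ (hle K) (lvl_lt f p hf K)⟩, fun x hx => lvl_union f p x hx,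
      fun K x hx => lvl_pow f p K x hx⟩

end Pool.Agent.Results.MP_c95b3b_ag.AlmostAllAlgebraicNumbers
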