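import Pool.Agent.Helper5.GZ.Graph
import Pool.Graph.R_pool_sql_team_seeded_f72693b1.Results.MP_c95b3b_ag.PowersOfTheLine

/-!
# Zilber's conjecture in tori and the differences of `n` numbers

For a graph `G` on the vertices `1, ..., n` the differences `x_j - x_i` of `n` complex numbers along
the edges `i < j` of `G`, if they are not zero, are the points of a linear subvariety of a torus
with one coordinate for every edge. For the complete graph this variety is the configuration space
of `n` points of the affine line (up to translation), and its quotient by the dilations is the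
moduli space of `n + 1` points on the projective line.

We show that Zilber's conjecture for all subvarieties of all tori (the frozen statement `S00439`) is
equivalent to its case for the complete graphs, and to its case for any class of graphs which
contains graphs with arbitrarily many disjoint triangles: for these graphs the points with more
independent multiplicative relations than the dimension lie in finitely many atypical subvarieties.
-/

set_option autoImplicit false

namespace Pool.Agent.Results.MP_c95b3b_ag.DifferencesAlongGraphs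

open MvPolynomial Module

/-- Zilber's conjecture on intersections with tori, verbatim the frozen statement `S00439`. -/
def ZilberConjecture : Prop :=
  ∀ (n : ℕ) (P : Ideal (MvPolynomial (Fin n) ℂ)), P.IsPrime →
    (∏ i : Fin n, (MvPolynomial.X i : MvPolynomial (Fin n) ℂ)) ∉ P →
    (∀ f : MvPolynomial (Fin n) ℂ,
      (∀ x : Fin n → ℂ, (∀ i, x i ≠ 0) → (∀ g ∈ P, MvPolynomial.eval x g = 0) →
        (∃ Λ : Submodule ℤ (Fin n → ℤ),
          ringKrullDim (MvPolynomial (Fin n) ℂ ⧸ P)
              + ((n - Module.finrank ℤ Λ : ℕ) : WithBot ℕ∞) + 1 ≤ (n : WithBot ℕ∞) ∧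
          ∀ a ∈ Λ, ∏ i : Fin n, x i ^ a i = 1) →
        MvPolynomial.eval x f = 0) →
      ∀ x : Fin n → ℂ, (∀ i, x i ≠ 0) → (∀ g ∈ P, MvPolynomial.eval x g = 0) →
        MvPolynomial.eval x f = 0) →
    ∃ a : Fin n → ℤ, a ≠ 0 ∧
      ∀ x : Fin n → ℂ, (∀ i, x i ≠ 0) → (∀ g ∈ P, MvPolynomial.eval x g = 0) →
        ∏ i : Fin n, x i ^ a i = 1

section tori

variable {ι : Type}

/-- The ideal of the polynomials which vanish at all points of the subset `A` of the torus. -/
def vanishing (A : Set (ι → ℂˣ)) : Ideal (MvPolynomial ι ℂ) where
  carrier := {f | ∀ x ∈ A, eval (fun j => (x j : ℂ)) f = 0}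
  add_mem' := by
    intro f g hf hg x hx
    rw [map_add, hf x hx, hg x hx, add_zero]
  zero_mem' := by
    intro x _
    exact map_zero _
  smul_mem' := by
    intro c f hf x hx
    rw [smul_eq_mul, map_mul, hf x hx, mul_zero]

/-- `A` is a Zariski closed subset of the torus: the set of the common zeros of some
polynomials. -/
def IsClosedSubset (A : Set (ι → ℂˣ)) : Prop :=
  ∃ J : Set (MvPolynomial ι ℂ), A = {x | ∀ f ∈ J, eval (fun j => (x j : ℂ)) f = 0}

/-- `A` is a subvariety of the torus: closed and irreducible (so not empty). -/
def IsSubvariety (A : Set (ι → ℂˣ)) : Prop := IsClosedSubset A ∧ (vanishing A).IsPrime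

/-- The dimension of `A`: the transcendence degree over `ℂ` of its coordinate ring. -/
noncomputable def dimension (A : Set (ι → ℂˣ)) : ℕ :=
  Cardinal.toNat (Algebra.trdeg ℂ (MvPolynomial ι ℂ ⧸ vanishing A))

variable [Fintype ι]

/-- The lattice of the multiplicative relations of `A`: the exponents of the characters which are
equal to 1 at all points of `A`. The smallest algebraic subgroup which contains `A` has the
dimension of the torus minus the rank of this lattice as dimension. -/
def relations (A : Set (ι → ℂˣ)) : Submodule ℤ (ι → ℤ) where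
  carrier := {a | ∀ x ∈ A, ∏ j, x j ^ a j = 1}
  add_mem' := by
    intro a b ha hb x hx
    have h1 := ha x hx
    have h2 := hb x hx
    simp only [Pi.add_apply, zpow_add, Finset.prod_mul_distrib]
    rw [h1, h2, one_mul]
  zero_mem' := by
    intro x _
    simp
  smul_mem' := by
    intro c a ha x hx
    have h1 := ha x hx
    simp only [Pi.smul_apply, smul_eq_mul]
    have h2 : ∏ j, x j ^ (c * a j) = (∏ j, x j ^ a j) ^ c := by
      rw [← Finset.prod_zpow]
      exact Finset.prod_congr rfl fun j _ => by rw [mul_comm, zpow_mul]
    rw [h2, h1, one_zpow]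

/-- `A` is an atypical subvariety of `V`: a subvariety of the torus which is contained in `V` and in
an algebraic subgroup `H` (the smallest one) with `dim A > dim V - codim H`. -/
def Atypical (V A : Set (ι → ℂˣ)) : Prop :=
  IsSubvariety A ∧ A ⊆ V ∧ dimension V < dimension A + finrank ℤ (relations A)

end tori

section graphs

variable {n : ℕ}

/-- The edges of a graph on `Fin n`, each one directed from the smaller to the larger end. -/
abbrev Edge (G : SimpleGraph (Fin n)) : Type :=
  {e : Fin n × Fin n // e.1 < e.2 ∧ G.Adj e.1 e.2}

noncomputable instance (G : SimpleGraph (Fin n)) : Fintype (Edge G) := Fintype.ofFinite _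

/-- The families `(x_j - x_i)` of the differences of `n` complex numbers along the edges `i < j` of
the graph `G`, in the torus with one coordinate for every edge (so `x_i ≠ x_j` for the adjacent `i`
and `j`). -/
def differences (G : SimpleGraph (Fin n)) : Set (Edge G → ℂˣ) :=
  {y | ∃ x : Fin n → ℂ, ∀ e : Edge G, (y e : ℂ) = x e.1.2 - x e.1.1}

/-- The graph contains `k` pairwise disjoint triangles. -/
def HasDisjointTriangles (k : ℕ) (G : SimpleGraph (Fin n)) : Prop :=
  ∃ t : Fin k × Fin 3 → Fin n, Function.Injective t ∧
    ∀ i a b, a ≠ b → G.Adj (t (i, a)) (t (i, b))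

end graphs

/-- The following are equivalent.
(1) Zilber's conjecture for all irreducible subvarieties of all tori.
(2) For every finite graph `G` the variety of the differences along the edges of `G` has only
finitely many maximal atypical subvarieties.
(3) For every `n` there are finitely many atypical subvarieties of the variety of the differences of
`n + 1` distinct numbers such that the differences of any `n + 1` distinct numbers satisfying
at least `n + 1` independent multiplicative relations lie in one of them.
(4) For every `k` there is a graph which contains `k` disjoint triangles, such that the points of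
the variety of its differences with more independent multiplicative relations than the
dimension of this variety lie in finitely many atypical subvarieties. -/
theorem result :
    List.TFAE [
      ZilberConjecture,
      ∀ (n : ℕ) (G : SimpleGraph (Fin n)), ∃ 𝒜 : Set (Set (Edge G → ℂˣ)), 𝒜.Finite ∧
        (∀ A ∈ 𝒜, Atypical (differences G) A) ∧
        ∀ A, Atypical (differences G) A → ∃ B ∈ 𝒜, A ⊆ B,
      ∀ n : ℕ, ∃ 𝒜 : Set (Set (Edge (⊤ : SimpleGraph (Fin (n + 1))) → ℂˣ)), 𝒜.Finite ∧
        (∀ A ∈ 𝒜, Atypical (differences ⊤) A) ∧
        ∀ y ∈ differences (⊤ : SimpleGraph (Fin (n + 1))),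
          n + 1 ≤ finrank ℤ (relations {y}) → ∃ A ∈ 𝒜, y ∈ A,
      ∀ k : ℕ, ∃ (n : ℕ) (G : SimpleGraph (Fin n)), HasDisjointTriangles k G ∧
        ∃ 𝒜 : Set (Set (Edge G → ℂˣ)), 𝒜.Finite ∧ (∀ A ∈ 𝒜, Atypical (differences G) A) ∧
        ∀ y ∈ differences G, dimension (differences G) < finrank ℤ (relations {y}) →
          ∃ A ∈ 𝒜, y ∈ A] := by
  tfae_have 1 → 2 := by
    intro h n G
    exact Pool.Agent.Helper5.GZ.finAtypical_of_zil h (Edge G) (differences G)
      (Pool.Agent.Helper5.GZ.isClosedT_SM (Pool.Agent.Helper5.GZ.Dm G))
  tfae_have 2 → 3 := by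
    intro h n
    obtain ⟨𝒜, h1, h2, h3⟩ := h (n + 1) ⊤
    refine ⟨𝒜, h1, h2, fun y hy hr => ?_⟩
    obtain ⟨B, hB, hyB⟩ := h3 {y} ⟨Pool.Agent.Y645.UL.isSubvar_singleton y,
      Set.singleton_subset_iff.2 hy, by
        have h4 : dimension (differences (⊤ : SimpleGraph (Fin (n + 1)))) = n :=
          Pool.Agent.Helper5.GZ.dimT_complete n
        omega⟩
    exact ⟨B, hB, hyB rfl⟩
  tfae_have 3 → 4 := by
    intro h k
    obtain ⟨𝒜, h1, h2, h3⟩ := h (k * 3)
    have h4 : dimension (differences (⊤ : SimpleGraph (Fin (k * 3 + 1)))) = k * 3 :=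
      Pool.Agent.Helper5.GZ.dimT_complete (k * 3)
    refine ⟨k * 3 + 1, ⊤, ⟨fun u => (finProdFinEquiv u).castSucc, ?_, ?_⟩, 𝒜, h1, h2,
      fun y hy hr => h3 y hy (by omega)⟩
    · exact (Fin.castSucc_injective _).comp finProdFinEquiv.injective
    · intro i a b hab
      rw [SimpleGraph.top_adj]
      intro he
      exact hab (congrArg Prod.snd (finProdFinEquiv.injective (Fin.castSucc_injective _ he)))
  tfae_have 4 → 1 := by
    intro h
    refine (Pool.Agent.Results.MP_c95b3b_ag.PowersOfTheLine.result.out 0 2).2 fun k => ?_
    obtain ⟨n, G, ⟨t, ht⟩, hfin⟩ := h k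
    exact Pool.Agent.Helper5.GZ.line_of_graph (t := t) ht hfin
  tfae_finish

end Pool.Agent.Results.MP_c95b3b_ag.DifferencesAlongGraphs
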