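import Pool.Agent.Helper60.ZW.P9
import Pool.Agent.Helper60.ZW.B4
import Pool.Agent.Helper60.ZW.B5
import Pool.Agent.Helper60.ZW.B6
import Pool.Agent.Helper60.ZW.Gen
import Pool.Agent.Helper60.ZW.Emb
import Pool.Agent.Helper60.ZW.Un
import Pool.Graph.R_pool_sql_team_seeded_63374d34.N902.OP.GeoU

/-!
# Zilber's conjecture on intersections with tori and the powers of one closed set

**Statement.** Let `W` be an arbitrary Zariski closed subset of a torus `G_m ^ N` over the complex numbers.
The following are equivalent.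

* `W` is a finite union of translates of subtori, or Zilber's conjecture (Q1 of the problem, for all `n`
  and all irreducible subvarieties `Y` of `G_m ^ n`) holds.
* (i) For every `k`, the power `W ^ k` has only finitely many optimal subvarieties (in the sense of Habegger
  and Pila: subvarieties `A` such that all strictly larger subvarieties of `W ^ k` have larger defect).
* (ii) For all `k` and `s`, finitely many subvarieties of `W ^ k` of defect less than `s` contain all points
  of `W ^ k` which lie on algebraic subgroups of dimension less than `s`.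

So there is a dichotomy: for a finite union of cosets the finiteness (i) is a fact, and for every other
closed set `W` it is equivalent to the whole conjecture of Zilber.

**The proof.** From Zilber's conjecture to (i): the reductions to points and to slices of the library
(`N902`). For cosets (i) is elementary (`ZW/Co`, `ZW/Un`). From (i) to (ii): a point lies in an optimal
subvariety of at most its defect. From (ii) to Zilber's conjecture, if some component `C` of `W` is not a
coset:

1. (One gate, `ZW/Gen`, `ZW/Emb`.) There is a curve in `C`, with generic constants for some of the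
   coordinates, on which the other coordinates are determined by one coordinate `t` through the equations
   of `C` transversally, and on which some coordinate is multiplicatively independent of `t` modulo
   constants. It avoids the other components of `W`.
2. (Encoding, `ZW/A1` to `ZW/P9`, `ZC/P1` to `ZC/P6`.) Let `L` be an algebraically closed field over `ℂ`.
   A finite family of units `w` of `L` with a subset `J` over whose adjunction all are algebraic can be
   encoded by finitely many *gates*: units `u` of `L`, multiplicatively independent modulo constants, and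
   points `x_g` of `C` with coordinates constant multiples of monomials in `u`, such that the linearized
   equations of `C` at the `x_g` (in the logarithmic differentials of the `u`) and `d log w_i = 0`, `i ∈ J`,
   determine everything (`Enc`). The class `Cl` of the units which can be so obtained from a set of
   units is a closure operator; the replacement of `u` by `κ u ^ k` at special places of a function
   field gives an unbalanced correspondence, norms from it give `u + 1 ∈ Cl {u}`, and then `Cl` is the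
   algebraic closure.
3. (Transfer, `ZW/B4` to `ZW/B6`.) The encoding of the generic point of a counterexample `Y` of dimension
   `d` by `V` units gives, for `r` points of `Y` in general position on subgroups of codimension `d + 1`, a
   point of `W ^ k` of rank less than `s = r (|V| - d)`; if these lie in finitely many subvarieties of
   defect less than `s`, then one of these contains all points which correspond to `r`-tuples of points
   of `Y`, and the linearized equations of the encoding show that its defect is at least `s`. The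
   equations may be redundant (for hypersurfaces one can choose independent ones, and then maximal
   atypical subvarieties suffice instead of optimal ones: `PowersOfAHypersurface`).

**Contributions.** `ZW/Gen`, `ZW/Cst`, `ZW/Co`, `ZW/Un` are by helper21, `ZW/Emb`, `ZW/B4`, `ZW/B5` by helper18;
of the files for hypersurfaces which are used here `ZC/B2`, `ZC/P2` are by helper47, `ZC/B3`, `ZC/B4`,
`ZC/B5`, `ZH/B5` by helper18, `ZC/P1`, `ZH/B4` by helper21.
-/

set_option autoImplicit false

namespace Pool.Agent.Results.MP_c95b3b_ag.PowersOfAClosedSet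

open Pool.Agent.R948 Pool.Agent.N902.OP

/-- The set `U(Y)` of the points of `Y` on algebraic subgroups `H` with `dim Y + dim H ≤ n - 1`. The
algebraic subgroups of dimension `n - r` of the torus are the sets `x ^ a = 1`, `a ∈ Λ`, for the
subgroups `Λ` of rank `r` of `ℤ ^ n`. -/
def U {n : ℕ} (Y : Set (Fin n → ℂˣ)) : Set (Fin n → ℂˣ) :=
  {x | x ∈ Y ∧ ∃ Λ : Submodule ℤ (Fin n → ℤ), vdim Y + (n - Module.finrank ℤ Λ) + 1 ≤ n ∧
    ∀ a ∈ Λ, ∏ i, x i ^ a i = 1}

/-- Q1: if `U(Y)` is Zariski dense in `Y` then `Y` is contained in a proper algebraic subgroup. -/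
def ZilberConjecture : Prop :=
  ∀ (n : ℕ) (Y : Set (Fin n → ℂˣ)), Subvariety Y →
    (∀ f : MvPolynomial (Fin n) ℂ, (∀ x ∈ U Y, MvPolynomial.eval (fun i => (x i : ℂ)) f = 0) →
      ∀ x ∈ Y, MvPolynomial.eval (fun i => (x i : ℂ)) f = 0) →
    ∃ a : Fin n → ℤ, a ≠ 0 ∧ ∀ x ∈ Y, ∏ i, x i ^ a i = 1

/-- The irreducible cosets: the irreducible subsets of the torus which are translates of algebraic
subgroups, i.e. the translates of subtori. -/
def IsTorusCoset {N : ℕ} (C : Set (Fin N → ℂˣ)) : Prop :=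
  Subvariety C ∧ ∃ (g : Fin N → ℂˣ) (S : Set (Fin N → ℤ)),
    C = {x | ∀ a ∈ S, ∏ i, x i ^ a i = ∏ i, g i ^ a i}

/-- `W` is a finite union of translates of subtori. -/
def IsUnionOfCosets {N : ℕ} (W : Set (Fin N → ℂˣ)) : Prop :=
  ∃ 𝒞 : Set (Set (Fin N → ℂˣ)), 𝒞.Finite ∧ (∀ C ∈ 𝒞, IsTorusCoset C) ∧ W = ⋃₀ 𝒞

/-- The `k`-th power of `W`, in `G_m ^ (k N)`. -/
def power {N : ℕ} (W : Set (Fin N → ℂˣ)) (k : ℕ) : Set (Fin k × Fin N → ℂˣ) :=
  {z | ∀ i, (fun j => z (i, j)) ∈ W}

/-- The points of the `k`-th power of `W` which lie on an algebraic subgroup of dimension less than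
`s`. -/
def low {N : ℕ} (W : Set (Fin N → ℂˣ)) (k s : ℕ) : Set (Fin k × Fin N → ℂˣ) :=
  {z | z ∈ power W k ∧ ∃ Λ : Submodule ℤ (Fin k × Fin N → ℤ),
    (k * N - Module.finrank ℤ Λ) + 1 ≤ s ∧ ∀ a ∈ Λ, ∏ t, z t ^ a t = 1}

theorem mem_U {n : ℕ} (Y : Set (Fin n → ℂˣ)) (x : Fin n → ℂˣ) :
    x ∈ U Y ↔ x ∈ Y ∧ vdim Y + 1 ≤ dr x := by
  have h0 := dr_le_card x
  rw [Fintype.card_fin] at h0
  constructor
  · rintro ⟨h1, Λ, h2, h3⟩
    have h4 := le_dr x Λ h3
    exact ⟨h1, by omega⟩
  · rintro ⟨h1, h2⟩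
    obtain ⟨Λ, h3, h4⟩ := exists_lat x
    exact ⟨h1, Λ, by omega, h4⟩

theorem mem_low {N k s : ℕ} (W : Set (Fin N → ℂˣ)) (z : Fin k × Fin N → ℂˣ) :
    z ∈ low W k s ↔ z ∈ power W k ∧ N * k + 1 ≤ dr z + s := by
  have h0 := dr_le_card z
  rw [Fintype.card_prod, Fintype.card_fin, Fintype.card_fin] at h0
  have hc : k * N = N * k := Nat.mul_comm _ _
  constructor
  · rintro ⟨h1, Λ, h2, h3⟩
    have h4 := le_dr z Λ h3
    exact ⟨h1, by omega⟩
  · rintro ⟨h1, h2⟩
    obtain ⟨Λ, h3, h4⟩ := exists_lat z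
    exact ⟨h1, Λ, by omega, h4⟩

/-- the powers are closed -/
theorem power_closed {N : ℕ} {W : Set (Fin N → ℂˣ)} (hW : ZClosed W) (k : ℕ) :
    ZClosed (power W k) := by
  obtain ⟨S, rfl⟩ := hW
  refine ⟨{f | ∃ i : Fin k, ∃ g ∈ S, f = MvPolynomial.rename (fun j : Fin N => (i, j)) g}, ?_⟩
  ext z
  constructor
  · rintro hz _ ⟨i, g, hg, rfl⟩
    rw [MvPolynomial.eval_rename]
    exact hz i g hg
  · intro hz i g hg
    have h1 := hz _ ⟨i, g, hg, rfl⟩
    rw [MvPolynomial.eval_rename] at h1
    exact h1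

/-- every subvariety is contained in an optimal one of at most the same defect -/
theorem exists_optimal {ι : Type} [Fintype ι] {A V : Set (ι → ℂˣ)} (hA : Subvariety A)
    (hAV : A ⊆ V) : ∃ B, Optimal B V ∧ A ⊆ B ∧ defect B ≤ defect A := by
  let s : Set ℕ := {n | ∃ B, (Subvariety B ∧ B ⊆ V ∧ defect B ≤ defect A) ∧ A ⊆ B ∧ vdim B = n}
  have hs1 : s.Nonempty := ⟨_, A, ⟨hA, hAV, le_rfl⟩, subset_rfl, rfl⟩
  have hs2 : BddAbove s := ⟨Fintype.card ι, by
    rintro _ ⟨B, hB, -, rfl⟩
    rw [vdim_eq hB.1]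
    exact tdP_le_card _⟩
  obtain ⟨B, ⟨h1, h2, h3⟩, h4, h5⟩ := Nat.sSup_mem hs1 hs2
  refine ⟨B, ⟨h1, h2, fun B' hB' hBB' hBV hd => ?_⟩, h4, h3⟩
  have h6 : vdim B' ∈ s := ⟨B', ⟨hB', hBV, hd.trans h3⟩, h4.trans hBB'.1, rfl⟩
  have h7 := le_csSup hs2 h6
  have h8 := t_vdim_strict h1 hB' hBB'
  omega

/-- the defect of a point of low rank -/
theorem low_defect {N k s : ℕ} {W : Set (Fin N → ℂˣ)} {z : Fin k × Fin N → ℂˣ}
    (hz : z ∈ low W k s) : defect {z} < s := by
  obtain ⟨h1, h2⟩ := (mem_low W z).1 hz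
  rw [defect_one, df_self, Fintype.card_prod, Fintype.card_fin, Fintype.card_fin]
  have h3 : ((N * k + 1 : ℕ) : ℤ) ≤ ((dr z + s : ℕ) : ℤ) := by exact_mod_cast h2
  push_cast at h3 ⊢
  have h4 : (k : ℤ) * N = N * k := mul_comm _ _
  linarith

theorem of_zilR (h : Pool.Agent.Helper60.ZC.ZilR) : ZilberConjecture := by
  intro n Y hY hd
  refine h n Y hY fun f hf => hd f fun x hx => ?_
  obtain ⟨h1, h2⟩ := (mem_U Y x).1 hx
  exact hf x h1 h2

theorem result {N : ℕ} (W : Set (Fin N → ℂˣ)) (hW : ZClosed W) :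
    ((∀ k, {A | Optimal A (power W k)}.Finite) ↔ (IsUnionOfCosets W ∨ ZilberConjecture)) ∧
    ((∀ k s : ℕ, ∃ 𝒜 : Set (Set (Fin k × Fin N → ℂˣ)), 𝒜.Finite ∧
        (∀ A ∈ 𝒜, Subvariety A ∧ A ⊆ power W k ∧ defect A < s) ∧ low W k s ⊆ ⋃₀ 𝒜) ↔
      (IsUnionOfCosets W ∨ ZilberConjecture)) := by
  have h12 : IsUnionOfCosets W ∨ ZilberConjecture → ∀ k, {A | Optimal A (power W k)}.Finite := by
    rintro (⟨𝒞, h1, h2, h3⟩ | h) k
    · exact Pool.Agent.Helper60.ZW.union_cosets W 𝒞 h1 h2 h3 k
    · have h13 : ∀ (ι : Type) [Fintype ι] (V : Set (ι → ℂˣ)), ZClosed V →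
          {x | Optimal {x} V}.Finite := by
        intro ι _ V hV
        refine t_points_of_zilber (fun n Y hY hd => ?_) V hV
        exact h n Y hY fun f hf => hd f fun x hx hx2 => hf x ((mem_U Y x).2 ⟨hx, hx2⟩)
      have h34 : ∀ (M : ℕ) (J : Finset (Fin M)), ∃ γ : Fin M → ℂ, AlgebraicIndependent ℚ γ ∧
          {x | Optimal {x} (lineSlice M J γ)}.Finite := by
        intro M J
        obtain ⟨γ, hγ⟩ := t_exists_indep (Fin M)
        obtain ⟨S, hS1, hS2⟩ := t_slice_linear M J γ
        refine ⟨γ, hγ, ?_⟩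
        rw [hS2]
        exact h13 _ _ ⟨S, rfl⟩
      exact t_all_of_slices h34 (power W k) (power_closed hW k)
  have h23 : (∀ k, {A | Optimal A (power W k)}.Finite) →
      ∀ k s : ℕ, ∃ 𝒜 : Set (Set (Fin k × Fin N → ℂˣ)), 𝒜.Finite ∧
        (∀ A ∈ 𝒜, Subvariety A ∧ A ⊆ power W k ∧ defect A < s) ∧ low W k s ⊆ ⋃₀ 𝒜 := by
    intro h k s
    refine ⟨{A | Optimal A (power W k) ∧ defect A < s}, (h k).subset fun A hA => hA.1,
      fun A hA => ⟨hA.1.1, hA.1.2.1, hA.2⟩, fun z hz => ?_⟩
    obtain ⟨B, hB1, hB2, hB3⟩ := exists_optimal (sub_one' z)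
      (Set.singleton_subset_iff.2 ((mem_low W z).1 hz).1)
    exact ⟨B, ⟨hB1, lt_of_le_of_lt hB3 (low_defect hz)⟩, hB2 rfl⟩
  have h31 : (∀ k s : ℕ, ∃ 𝒜 : Set (Set (Fin k × Fin N → ℂˣ)), 𝒜.Finite ∧
        (∀ A ∈ 𝒜, Subvariety A ∧ A ⊆ power W k ∧ defect A < s) ∧ low W k s ⊆ ⋃₀ 𝒜) →
      IsUnionOfCosets W ∨ ZilberConjecture := by
    intro h
    obtain ⟨𝒞, h1, h2, h3, h4⟩ := Pool.Agent.Helper60.ZW.exists_comp hW
    by_cases hall : ∀ C ∈ 𝒞, Pool.Agent.Helper60.ZW.IsCoset C
    · exact Or.inl ⟨𝒞, h1, fun C hC => ⟨h2 C hC, hall C hC⟩, h3⟩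
    push Not at hall
    obtain ⟨C, hC, hCc⟩ := hall
    obtain ⟨f, hf1, hf2⟩ := h4 C hC
    refine Or.inr (of_zilR (Pool.Agent.Helper60.ZW.t_b Pool.Agent.Helper60.ZW.t_b4
      Pool.Agent.Helper60.ZW.t_b5 N W C f (h2 C hC) (h3 ▸ Set.subset_sUnion_of_mem hC)
      (fun g hg => ?_)
      (Pool.Agent.Helper60.ZW.enc_all Pool.Agent.Helper60.ZW.t_gen
        Pool.Agent.Helper60.ZW.t_emb2 (h2 C hC) hCc hf1) fun k s => ?_))
    · intro x hx
      rw [h3] at hx
      obtain ⟨C', hC', hx'⟩ := hx
      rw [map_mul]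
      by_cases hCC : C' = C
      · subst hCC
        rw [hg x hx', zero_mul]
      · rw [hf2 C' hC' hCC x hx', mul_zero]
    · obtain ⟨𝒜, h5, h6, h7⟩ := h k s
      refine ⟨𝒜, h5, h6, fun z hz hz2 => ?_⟩
      exact h7 ((mem_low W z).2 ⟨hz, hz2⟩)
  exact ⟨⟨fun h => h31 (h23 h), h12⟩, ⟨h31, fun h => h23 (h12 h)⟩⟩

end Pool.Agent.Results.MP_c95b3b_ag.PowersOfAClosedSet
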