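import Pool.Agent.Helper60.ZH.P9
import Pool.Agent.Helper60.ZH.B4
import Pool.Agent.Helper60.ZH.B5
import Pool.Agent.Helper60.ZH.B6
import Pool.Agent.Helper60.ZH.NBT
import Pool.Agent.Helper60.ZH.SLC
import Pool.Graph.R_pool_sql_team_seeded_63374d34.N902.OP.GeoU

/-!
# Zilber's conjecture on intersections with tori and the powers of one hypersurface

**Statement.** Let `H` be an irreducible polynomial in `N` variables over the complex numbers, whose zero
set `W` in the torus `G_m ^ N` is not contained in a translate of a proper algebraic subgroup (no nontrivial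
character is constant on `W`). Then the following are equivalent.

* Zilber's conjecture (Q1 of the problem, for all `n` and all irreducible subvarieties `Y` of `G_m ^ n`).
* (i) For every `k`, the power `W ^ k` has only finitely many maximal atypical subvarieties.
* (ii) For every `k`, finitely many atypical subvarieties of `W ^ k` contain all points of `W ^ k` which lie
  on algebraic subgroups of dimension less than `k` (the codimension of `W ^ k`).

So the whole conjecture is a statement on one hypersurface, for example one plane curve, and this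
hypersurface may be prescribed arbitrarily, as long as it is not a coset.

**The proof.** From Zilber's conjecture to (i): the reductions to points and to slices of the library
(`N902`). From (i) to (ii): clear. From (ii) to Zilber's conjecture:

1. (Encoding, `ZH/A1` to `ZH/P9`.) Let `L` be an algebraically closed field over `ℂ`. A finite family of
   units `w` of `L` with a subset `I` over whose adjunction all are algebraic can be encoded by finitely
   many *gates*: units `u` of `L`, multiplicatively independent modulo constants, monomials `x_g` in the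
   `u` with constant coefficients with `H (x_g) = 0`, and `w = c u ^ η`, such that the equations
   `d H (x_g) = 0` (in the logarithmic differentials of the `u`) and `d log w_i = 0`, `i ∈ I`, determine
   everything (`Enc`). The class `Cl` of the units which can be so obtained from a set of units is a
   closure operator, is closed under multiplication, roots, and under the hypersurface `H = 0` wherever
   one logarithmic derivative does not vanish.
2. The equation `H = 0` alone gives a correspondence between two units which commutes with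
   multiplication up to a small error. At a *special place* of the curve the replacement of `u` by
   `κ u ^ k` gives an unbalanced correspondence (`ZC/P3` to `ZC/P5`, `ZH/P7`, `ZH/P8`): this is the new
   point, and it works for every hypersurface which is not a coset.
3. Norms from the unbalanced correspondence give `u + 1 ∈ Cl {u}` for every nonconstant unit `u`, and
   then `Cl` is the algebraic closure (`ZC/A1` to `ZC/A7`, `ZH/P9`).
4. (Transfer, `ZC/B*`, `ZH/B*`.) The encoding of the generic point of a counterexample `Y` of dimension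
   `d` gives, for `r` points of `Y` in general position on subgroups of codimension `d + 1`, a point of
   `W ^ k` of low rank, for `k` a multiple of `r`; if these lie in finitely many atypical subvarieties,
   then one of these contains the point which corresponds to a generic tuple, and the equations of the
   encoding exclude this.

**Contributions.** `ZC/B2`, `ZC/P2`, `ZH/NBT` are by helper47, `ZC/B3`, `ZC/B4`, `ZC/B5`, `ZH/B5` by helper18,
`ZC/P1`, `ZH/SLC`, `ZH/B4` by helper21.
-/

set_option autoImplicit false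

namespace Pool.Agent.Results.MP_c95b3b_ag.PowersOfAHypersurface

open Pool.Agent.R948 Pool.Agent.N902.OP

/-- The set `U(Y)` of the points of `Y` on algebraic subgroups `H` with `dim Y + dim H ≤ n - 1`. The
algebraic subgroups of dimension `n - r` of the torus are the sets `x ^ a = 1`, `a ∈ Λ`, for the
subgroups `Λ` of rank `r` of `ℤ ^ n`. -/
def U {n : ℕ} (Y : Set (Fin n → ℂˣ)) : Set (Fin n → ℂˣ) :=
  {x | x ∈ Y ∧ ∃ Λ : Submodule ℤ (Fin n → ℤ), vdim Y + (n - Module.finrank ℤ Λ) + 1 ≤ n ∧
    ∀ a ∈ Λ, ∏ i, x i ^ a i = 1}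

/-- Q1: if `U(Y)` is Zariski dense in `Y` then `Y` is contained in a proper algebraic subgroup. -/
def ZilberConjecture : Prop :=
  ∀ (n : ℕ) (Y : Set (Fin n → ℂˣ)), Subvariety Y →
    (∀ f : MvPolynomial (Fin n) ℂ, (∀ x ∈ U Y, MvPolynomial.eval (fun i => (x i : ℂ)) f = 0) →
      ∀ x ∈ Y, MvPolynomial.eval (fun i => (x i : ℂ)) f = 0) →
    ∃ a : Fin n → ℤ, a ≠ 0 ∧ ∀ x ∈ Y, ∏ i, x i ^ a i = 1

/-- The hypersurface `H = 0` in the torus `G_m ^ N`. -/
def hyp {N : ℕ} (H : MvPolynomial (Fin N) ℂ) : Set (Fin N → ℂˣ) :=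
  {x | MvPolynomial.eval (fun j => (x j : ℂ)) H = 0}

/-- The hypersurface is not contained in a translate of a proper algebraic subgroup: no nontrivial
character is constant on it. -/
def NotCoset {N : ℕ} (H : MvPolynomial (Fin N) ℂ) : Prop :=
  ∀ a : Fin N → ℤ, a ≠ 0 → ∀ c : ℂˣ, ∃ x ∈ hyp H, ∏ j, x j ^ a j ≠ c

/-- The `k`-th power of the hypersurface, in `G_m ^ (k N)`. Its codimension is `k`. -/
def power {N : ℕ} (H : MvPolynomial (Fin N) ℂ) (k : ℕ) : Set (Fin k × Fin N → ℂˣ) :=
  {z | ∀ i, (fun j => z (i, j)) ∈ hyp H}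

/-- The atypical subvarieties of the `k`-th power: those `A` for which `dim A` is larger than expected,
`dim A > dim hull(A) - k`. -/
def Atypical {N : ℕ} (H : MvPolynomial (Fin N) ℂ) (k : ℕ) (A : Set (Fin k × Fin N → ℂˣ)) : Prop :=
  Subvariety A ∧ A ⊆ power H k ∧ defect A < k

/-- The maximal atypical subvarieties of the `k`-th power. -/
def MaxAtypical {N : ℕ} (H : MvPolynomial (Fin N) ℂ) (k : ℕ) (A : Set (Fin k × Fin N → ℂˣ)) : Prop :=
  Atypical H k A ∧ ∀ B, Atypical H k B → A ⊆ B → B ⊆ A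

/-- The points of the `k`-th power which lie on an algebraic subgroup of dimension less than `k`. -/
def low {N : ℕ} (H : MvPolynomial (Fin N) ℂ) (k : ℕ) : Set (Fin k × Fin N → ℂˣ) :=
  {z | z ∈ power H k ∧ ∃ Λ : Submodule ℤ (Fin k × Fin N → ℤ),
    (k * N - Module.finrank ℤ Λ) + 1 ≤ k ∧ ∀ a ∈ Λ, ∏ t, z t ^ a t = 1}

theorem mem_U {n : ℕ} (Y : Set (Fin n → ℂˣ)) (x : Fin n → ℂˣ) :
    x ∈ U Y ↔ x ∈ Y ∧ vdim Y + 1 ≤ dr x := by
  have h0 := dr_le_card x
  rw [Fintype.card_fin] at h0
  constructor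
  · rintro ⟨h1, Λ, h2, h3⟩
    have h4 := le_dr x Λ h3
    exact ⟨h1, by omega⟩
  · rintro ⟨h1, h2⟩
    obtain ⟨Λ, h3, h4⟩ := exists_lat x
    exact ⟨h1, Λ, by omega, h4⟩

theorem mem_low {N k : ℕ} (H : MvPolynomial (Fin N) ℂ) (z : Fin k × Fin N → ℂˣ) :
    z ∈ low H k ↔ z ∈ power H k ∧ N * k + 1 ≤ dr z + k := by
  have h0 := dr_le_card z
  rw [Fintype.card_prod, Fintype.card_fin, Fintype.card_fin] at h0
  have hc : k * N = N * k := Nat.mul_comm _ _
  constructor
  · rintro ⟨h1, Λ, h2, h3⟩
    have h4 := le_dr z Λ h3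
    exact ⟨h1, by omega⟩
  · rintro ⟨h1, h2⟩
    obtain ⟨Λ, h3, h4⟩ := exists_lat z
    exact ⟨h1, Λ, by omega, h4⟩

theorem power_eq {N : ℕ} (H : MvPolynomial (Fin N) ℂ) (k : ℕ) :
    power H k = Pool.Agent.Helper60.ZH.power H k := rfl

/-- the powers are closed -/
theorem power_closed {N : ℕ} (H : MvPolynomial (Fin N) ℂ) (k : ℕ) : ZClosed (power H k) := by
  refine ⟨Set.range fun i : Fin k => MvPolynomial.rename (fun j : Fin N => (i, j)) H, ?_⟩
  ext z
  constructor
  · rintro hz _ ⟨i, rfl⟩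
    rw [MvPolynomial.eval_rename]
    exact hz i
  · intro hz i
    have h1 := hz _ ⟨i, rfl⟩
    rw [MvPolynomial.eval_rename] at h1
    exact h1

/-- every atypical subvariety is contained in a maximal one -/
theorem exists_max {N k : ℕ} (H : MvPolynomial (Fin N) ℂ) {A : Set (Fin k × Fin N → ℂˣ)}
    (hA : Atypical H k A) : ∃ B, MaxAtypical H k B ∧ A ⊆ B := by
  let s : Set ℕ := {n | ∃ B, Atypical H k B ∧ A ⊆ B ∧ vdim B = n}
  have hs1 : s.Nonempty := ⟨_, A, hA, subset_rfl, rfl⟩
  have hs2 : BddAbove s := ⟨Fintype.card (Fin k × Fin N), by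
    rintro _ ⟨B, hB, -, rfl⟩
    rw [vdim_eq hB.1]
    exact tdP_le_card _⟩
  obtain ⟨B, h1, h2, h3⟩ := Nat.sSup_mem hs1 hs2
  refine ⟨B, ⟨h1, fun B' hB' hBB' => ?_⟩, h2⟩
  by_contra hne
  have h4 : vdim B' ∈ s := ⟨B', hB', h2.trans hBB', rfl⟩
  have h5 := le_csSup hs2 h4
  have h6 := t_vdim_strict h1.1 hB'.1 ⟨hBB', hne⟩
  omega

/-- the points of low rank are atypical -/
theorem low_atypical {N k : ℕ} (H : MvPolynomial (Fin N) ℂ) {z : Fin k × Fin N → ℂˣ}
    (hz : z ∈ low H k) : Atypical H k {z} := by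
  obtain ⟨h1, h2⟩ := (mem_low H z).1 hz
  refine ⟨sub_one' z, Set.singleton_subset_iff.2 h1, ?_⟩
  rw [defect_one, df_self, Fintype.card_prod, Fintype.card_fin, Fintype.card_fin]
  have hc : k * N = N * k := Nat.mul_comm _ _
  push_cast
  have h3 : ((N * k + 1 : ℕ) : ℤ) ≤ ((dr z + k : ℕ) : ℤ) := by exact_mod_cast h2
  push_cast at h3
  have h4 : (k : ℤ) * N = N * k := mul_comm _ _
  linarith

theorem optimal_of_max {N k : ℕ} (H : MvPolynomial (Fin N) ℂ) {A : Set (Fin k × Fin N → ℂˣ)}
    (hA : MaxAtypical H k A) : Optimal A (power H k) := by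
  refine ⟨hA.1.1, hA.1.2.1, fun B hB hAB hBV hd => ?_⟩
  have h1 : Atypical H k B := ⟨hB, hBV, lt_of_le_of_lt hd hA.1.2.2⟩
  exact hAB.2 (hA.2 B h1 hAB.1)

theorem zilR_of {h : ZilberConjecture} : Pool.Agent.Helper60.ZC.ZilR := by
  intro n Y hY hd
  exact h n Y hY fun f hf => hd f fun x hx hx2 => hf x ((mem_U Y x).2 ⟨hx, hx2⟩)

theorem of_zilR (h : Pool.Agent.Helper60.ZC.ZilR) : ZilberConjecture := by
  intro n Y hY hd
  refine h n Y hY fun f hf => hd f fun x hx => ?_
  obtain ⟨h1, h2⟩ := (mem_U Y x).1 hx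
  exact hf x h1 h2

theorem result {N : ℕ} (H : MvPolynomial (Fin N) ℂ) (hH : Irreducible H) (hnc : NotCoset H) :
    (ZilberConjecture ↔ ∀ k, {A | MaxAtypical H k A}.Finite) ∧
    (ZilberConjecture ↔ ∀ k, ∃ 𝒜 : Set (Set (Fin k × Fin N → ℂˣ)), 𝒜.Finite ∧
      (∀ A ∈ 𝒜, Atypical H k A) ∧ low H k ⊆ ⋃₀ 𝒜) := by
  have h12 : ZilberConjecture → ∀ k, {A | MaxAtypical H k A}.Finite := by
    intro h k
    have h13 : ∀ (ι : Type) [Fintype ι] (V : Set (ι → ℂˣ)), ZClosed V →
        {x | Optimal {x} V}.Finite := by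
      intro ι _ V hV
      refine t_points_of_zilber (fun n Y hY hd => ?_) V hV
      exact h n Y hY fun f hf => hd f fun x hx hx2 => hf x ((mem_U Y x).2 ⟨hx, hx2⟩)
    have h34 : ∀ (M : ℕ) (J : Finset (Fin M)), ∃ γ : Fin M → ℂ, AlgebraicIndependent ℚ γ ∧
        {x | Optimal {x} (lineSlice M J γ)}.Finite := by
      intro M J
      obtain ⟨γ, hγ⟩ := t_exists_indep (Fin M)
      obtain ⟨S, hS1, hS2⟩ := t_slice_linear M J γ
      refine ⟨γ, hγ, ?_⟩
      rw [hS2]
      exact h13 _ _ ⟨S, rfl⟩
    exact (t_all_of_slices h34 (power H k) (power_closed H k)).subset fun A hA => optimal_of_max H hA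
  have h23 : (∀ k, {A | MaxAtypical H k A}.Finite) → ∀ k, ∃ 𝒜 : Set (Set (Fin k × Fin N → ℂˣ)),
      𝒜.Finite ∧ (∀ A ∈ 𝒜, Atypical H k A) ∧ low H k ⊆ ⋃₀ 𝒜 := by
    intro h k
    refine ⟨_, h k, fun A hA => hA.1, fun z hz => ?_⟩
    obtain ⟨B, hB1, hB2⟩ := exists_max H (low_atypical H hz)
    exact ⟨B, hB1, hB2 rfl⟩
  have h31 : (∀ k, ∃ 𝒜 : Set (Set (Fin k × Fin N → ℂˣ)),
      𝒜.Finite ∧ (∀ A ∈ 𝒜, Atypical H k A) ∧ low H k ⊆ ⋃₀ 𝒜) → ZilberConjecture := by
    intro h
    refine of_zilR (Pool.Agent.Helper60.ZH.t_b Pool.Agent.Helper60.ZH.t_b4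
      Pool.Agent.Helper60.ZH.t_b5 N H
      (Pool.Agent.Helper60.ZH.enc_all Pool.Agent.Helper60.ZH.t_slc Pool.Agent.Helper60.ZH.t_nbt hH
        fun a ha c => ?_) fun k => ?_)
    · obtain ⟨x, hx, hx2⟩ := hnc a ha c
      exact ⟨x, hx, hx2⟩
    · obtain ⟨𝒜, h1, h2, h3⟩ := h k
      refine ⟨𝒜, h1, h2, fun z hz hz2 => ?_⟩
      exact h3 ((mem_low H z).2 ⟨hz, hz2⟩)
  exact ⟨⟨h12, fun h => h31 (h23 h)⟩, ⟨fun h => h23 (h12 h), h31⟩⟩

end Pool.Agent.Results.MP_c95b3b_ag.PowersOfAHypersurface
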